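import Pool.Agent.Helper54.ClawFree.Final

/-!
# Every claw-free cubic graph is (1,1,2,3)-packing colourable
-/

namespace Pool.Agent.Results.MP_b5f1b3_co.ClawFreeCubic

open Pool.Agent.Helper54.ClawFree

/-- `X` is an `s`-packing of `G`: distinct vertices of `X` are at distance greater than `s`
(vertices in different components are at infinite distance). -/
def IsPacking {V : Type*} (G : SimpleGraph V) (s : ℕ) (X : Set V) : Prop :=
  ∀ u ∈ X, ∀ v ∈ X, u ≠ v → (s : ℕ∞) < G.edist u v

/-- `G` is `S`-packing colourable, for `S = (S 0, …, S (k - 1))`: the vertices can be coloured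
with colours `i : Fin k` so that the vertices of colour `i` form an `S i`-packing. -/
def IsPackingColorable {V : Type*} (G : SimpleGraph V) {k : ℕ} (S : Fin k → ℕ) : Prop :=
  ∃ c : V → Fin k, ∀ i, IsPacking G (S i) {v | c v = i}

/-- Every vertex has exactly three neighbours. -/
def IsCubic {V : Type*} (G : SimpleGraph V) : Prop := ∀ v, (G.neighborSet v).ncard = 3

/-- No induced subgraph of `G` is isomorphic to `K_{1,3}`. -/
def IsClawFree {V : Type*} (G : SimpleGraph V) : Prop :=
  ¬ (completeBipartiteGraph (Fin 1) (Fin 3)).IsIndContained G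

lemma isLocal {V : Type*} {G : SimpleGraph V} (hc : IsCubic G) (hf : IsClawFree G) :
    Local G := by
  intro v
  obtain ⟨x, y, z, hxy, hxz, hyz, hN⟩ := Set.ncard_eq_three.1 (hc v)
  have hN' : ∀ w, G.Adj v w ↔ w = x ∨ w = y ∨ w = z := by
    intro w
    rw [← SimpleGraph.mem_neighborSet, hN]
    simp
  by_cases h1 : G.Adj x y
  · exact ⟨x, y, z, hxy, hxz, hyz, h1, hN'⟩
  by_cases h2 : G.Adj x z
  · exact ⟨x, z, y, hxz, hxy, hyz.symm, h2, fun w => by rw [hN' w]; tauto⟩
  by_cases h3 : G.Adj y z
  · exact ⟨y, z, x, hyz, hxy.symm, hxz.symm, h3, fun w => by rw [hN' w]; tauto⟩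
  exfalso
  apply hf
  have hvx : G.Adj v x := (hN' x).2 (Or.inl rfl)
  have hvy : G.Adj v y := (hN' y).2 (Or.inr (Or.inl rfl))
  have hvz : G.Adj v z := (hN' z).2 (Or.inr (Or.inr rfl))
  have h1' : ¬ G.Adj y x := fun h => h1 h.symm
  have h2' : ¬ G.Adj z x := fun h => h2 h.symm
  have h3' : ¬ G.Adj z y := fun h => h3 h.symm
  have hinj : Function.Injective (Sum.elim (fun _ => v) ![x, y, z] : Fin 1 ⊕ Fin 3 → V) := by
    rintro (a | a) (b | b) hab
    · congr 1; exact Subsingleton.elim _ _
    · exfalso
      fin_cases b <;> simp at hab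
      · exact hvx.ne hab
      · exact hvy.ne hab
      · exact hvz.ne hab
    · exfalso
      fin_cases a <;> simp at hab
      · exact hvx.ne hab.symm
      · exact hvy.ne hab.symm
      · exact hvz.ne hab.symm
    · congr 1
      fin_cases a <;> fin_cases b <;> simp at hab ⊢
      · exact hxy hab
      · exact hxz hab
      · exact hxy hab.symm
      · exact hyz hab
      · exact hxz hab.symm
      · exact hyz hab.symm
  have hadj : ∀ a b : Fin 1 ⊕ Fin 3, G.Adj ((Sum.elim (fun _ => v) ![x, y, z] :
      Fin 1 ⊕ Fin 3 → V) a) ((Sum.elim (fun _ => v) ![x, y, z] : Fin 1 ⊕ Fin 3 → V) b) ↔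
      (completeBipartiteGraph (Fin 1) (Fin 3)).Adj a b := by
    rintro (a | a) (b | b)
    · simp
    · fin_cases b <;> simp [hvx, hvy, hvz]
    · fin_cases a <;> simp [hvx.symm, hvy.symm, hvz.symm]
    · fin_cases a <;> fin_cases b <;> simp [h1, h2, h3, h1', h2', h3']
  exact ⟨⟨⟨_, hinj⟩, fun {a b} => hadj a b⟩⟩

lemma lt_edist {V : Type*} {G : SimpleGraph V} {u v : V} (n : ℕ)
    (h : ∀ p : G.Walk u v, n < p.length) : (n : ℕ∞) < G.edist u v := by
  by_contra hcon
  rw [not_lt] at hcon
  have hne : G.edist u v ≠ ⊤ := ne_top_of_le_ne_top (ENat.natCast_ne_top n) hcon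
  obtain ⟨p, hp⟩ := SimpleGraph.exists_walk_of_edist_ne_top hne
  rw [← hp] at hcon
  have := h p
  have h2 : p.length ≤ n := by exact_mod_cast hcon
  omega

/-- Every claw-free cubic graph is `(1,1,2,3)`-packing colourable. -/
theorem result {V : Type*} [Finite V] (G : SimpleGraph V) (hcubic : IsCubic G)
    (hclaw : IsClawFree G) : IsPackingColorable G ![1, 1, 2, 3] := by
  classical
  obtain ⟨A, B, f, hA, hB, hf⟩ := core (isLocal hcubic hclaw)
  refine ⟨fun x => if x ∈ A then 2 else if x ∈ B then 3 else if f x = true then 0 else 1, ?_⟩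
  have hind : ∀ u v, u ∉ A → u ∉ B → v ∉ A → v ∉ B → f u = f v → u ≠ v →
      ((1 : ℕ) : ℕ∞) < G.edist u v := by
    intro u v h1 h2 h3 h4 h5 h6
    refine lt_edist 1 fun p => ?_
    match p with
    | .nil => exact absurd rfl h6
    | .cons h .nil => exact absurd h5 (hf _ _ h1 h2 h3 h4 h)
    | .cons _ (.cons _ _) => simp
  intro i u hu v hv huv
  simp only [Set.mem_ofPred_eq] at hu hv
  fin_cases i
  · have key : ∀ x, (if x ∈ A then (2 : Fin 4) else if x ∈ B then 3 else
        if f x = true then 0 else 1) = 0 → x ∉ A ∧ x ∉ B ∧ f x = true := by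
      intro x hx
      by_cases h1 : x ∈ A
      · simp [h1] at hx
      · by_cases h2 : x ∈ B
        · simp [h1, h2] at hx
        · by_cases h3 : f x = true
          · exact ⟨h1, h2, h3⟩
          · simp [h1, h2, h3] at hx
    obtain ⟨a1, a2, a3⟩ := key u hu
    obtain ⟨b1, b2, b3⟩ := key v hv
    exact hind u v a1 a2 b1 b2 (a3.trans b3.symm) huv
  · have key : ∀ x, (if x ∈ A then (2 : Fin 4) else if x ∈ B then 3 else
        if f x = true then 0 else 1) = 1 → x ∉ A ∧ x ∉ B ∧ f x = false := by
      intro x hx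
      by_cases h1 : x ∈ A
      · simp [h1] at hx
      · by_cases h2 : x ∈ B
        · simp [h1, h2] at hx
        · by_cases h3 : f x = true
          · simp [h1, h2, h3] at hx
          · exact ⟨h1, h2, by simpa using h3⟩
    obtain ⟨a1, a2, a3⟩ := key u hu
    obtain ⟨b1, b2, b3⟩ := key v hv
    exact hind u v a1 a2 b1 b2 (a3.trans b3.symm) huv
  · have key : ∀ x, (if x ∈ A then (2 : Fin 4) else if x ∈ B then 3 else
        if f x = true then 0 else 1) = 2 → x ∈ A := by
      intro x hx
      by_contra h1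
      by_cases h2 : x ∈ B
      · simp [h1, h2] at hx
      · by_cases h3 : f x = true
        · simp [h1, h2, h3] at hx
        · simp [h1, h2, h3] at hx
    obtain ⟨k1, k2⟩ := hA u (key u hu) v (key v hv) huv
    refine lt_edist 2 fun p => ?_
    match p with
    | .nil => exact absurd rfl huv
    | .cons h .nil => exact absurd h k1
    | .cons h (.cons h' .nil) => exact absurd h' (k2 _ h)
    | .cons _ (.cons _ (.cons _ _)) => simp
  · have key : ∀ x, (if x ∈ A then (2 : Fin 4) else if x ∈ B then 3 else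
        if f x = true then 0 else 1) = 3 → x ∈ B := by
      intro x hx
      by_contra h2
      by_cases h1 : x ∈ A
      · simp [h1] at hx
      · by_cases h3 : f x = true
        · simp [h1, h2, h3] at hx
        · simp [h1, h2, h3] at hx
    obtain ⟨k1, k2, k3⟩ := hB u (key u hu) v (key v hv) huv
    refine lt_edist 3 fun p => ?_
    match p with
    | .nil => exact absurd rfl huv
    | .cons h .nil => exact absurd h k1
    | .cons h (.cons h' .nil) => exact absurd h' (k2 _ h)
    | .cons h (.cons h' (.cons h'' .nil)) => exact absurd h'' (k3 _ _ h h')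
    | .cons _ (.cons _ (.cons _ (.cons _ _))) => simp

end Pool.Agent.Results.MP_b5f1b3_co.ClawFreeCubic
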